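import Pool.Agent.Lib_helper78.PCL.D

/-!
# MP_5d94c0_lc: p-selective languages close to P (a special case of Q1)

If a p-selective language `S` is `≤_T^P`-hard for `NP`, then every language that differs from `S`
on a sparse set is `≤_T^P`-hard for `NP`.  So Selman's question has a positive answer for all
p-selective languages that are p-close (their symmetric difference with some language in `P` is
sparse), in particular for sparse and for co-sparse languages: if such a language is
`≤_T^P`-complete for `NP` then `P = NP`.  More generally `P` may be replaced by a uniform sequence of
languages `E 0, E 1, ...` in `P` (for example: the sections of a language in `P/log`), and the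
theorem is quantitative: if up to the length `|x|^k` one of `E 0, ..., E m` has at most `m` errors,
then an `NP` question about `x` is decided in time polynomial in `|x| + m`.  Everything holds
relative to every oracle `O`; `O = fun _ => false` is the classical case.

Proof.  Since `S` is hard for `NP`, there is a program `c` that finds witnesses with the help of `S`
(`exists_search`).  Let `A` be a list of strings, at first empty.  Sort `A` by insertion with the
selector; then `S ∩ A` is an initial segment of `A`, for one of the cuts of `A` (`srt_spec`,
`exists_cut`).  Consider only the cuts of `A` that disagree with `E i` on at most `m` elements of `A`.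
If two such cuts are given, then they differ by at most `2 m` elements, so there are at most
`2 m + 1` such cuts, no matter how long `A` is (`cands_length`).  For each of them run the program
`c`, where a query in `A` is answered with the cut, and other queries with `E i`; and add all
queries to `A`.  This is one round.  If the run for the true cut (the cut `S ∩ A`) is wrong, then it
has asked about a string outside of `A` on which `S` and `E i` differ, so that `A` gets a new
error of `E i`.  Since there are at most `m` errors, after `m + 1` rounds the run for the true cut
is right and finds a witness, if there is one (`rounds`).  All candidates are verified.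

Definitions: machines, `Halts`, `Accepts`, `InP`, `InNP`, `TuringReducible` are in
`Lib_helper74/CKF/Defs.lean`; `PSelective`, `TuringHard`, `errors`, `SparseDifference` and
`UniformP` are in `Lib_helper78/PCL/Defs.lean`.
-/

set_option autoImplicit false

namespace Pool.Agent.Results.MP_5d94c0_lc.CloseToP

open Pool.Agent.CK Pool.Agent.PCL

theorem result (O S : Lang) (hS : PSelective O S) (hH : TuringHard O S) :
    (∀ E : Lang, InP O E → SparseDifference S E → ∀ A, InNP O A → InP O A) ∧
    (∀ E : Lang, SparseDifference S E → TuringHard O E) ∧
    (∀ E : ℕ → Lang, UniformP O E →
      (∃ k, ∀ n, ∃ i ≤ (n + 2) ^ k, errors S (E i) n ≤ (n + 2) ^ k) →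
      ∀ A, InNP O A → InP O A) ∧
    (∀ (Q : Lang) (E : ℕ → Lang), InP Q O → UniformP Q E → ∀ A, InNP O A →
      ∃ (c : Cmd) (k : ℕ), ∀ (x : List Bool) (m : ℕ),
        Halts Q c x (List.replicate m true) ((x.length + m + 2) ^ k) ∧
        ((∃ i ≤ m, errors S (E i) ((x.length + 2) ^ k) ≤ m) →
          (Accepts Q c x (List.replicate m true) ((x.length + m + 2) ^ k) ↔ A x = true))) := by
  refine ⟨fun E hE hd A hA => ?_, fun E hd A hA => ?_, fun E hE h A hA =>
    poly_case (inP_self O) hS hH hE h hA, fun Q E hO hE A hA => machine_case hO hS hH hE hA⟩
  · obtain ⟨k, hk⟩ := hd
    exact poly_case (inP_self O) hS hH (uniform_of_inP hE)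
      ⟨k, fun n => ⟨0, Nat.zero_le _, hk n⟩⟩ hA
  · obtain ⟨k, hk⟩ := hd
    exact poly_case (inP_join O E) hS hH (uniform_of_inP (inP_right O E))
      ⟨k, fun n => ⟨0, Nat.zero_le _, hk n⟩⟩ hA

end Pool.Agent.Results.MP_5d94c0_lc.CloseToP
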