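import Pool.Agent.Lib_helper78.APT.Main
import Pool.Agent.Lib_helper57.AFF.F
import Pool.Agent.Lib_helper78.TA.Defs

/-!
# MP_5d94c0_lc: the density of p-selective complete sets against the hardness of `NP`, in oracles
that contain their own multilinear extensions

By the theorem CloseToP of this problem (part 4), relative to every oracle, a p-selective language
with at most `2 ^ r n` elements of length at most `n` that is `≤_T^P`-hard for `NP` puts `NP` in
time `2 ^ O(r (n ^ k))`; in particular a sparse one gives `P = NP`.  And it is known that a
p-selective language that is `≤_T^P`-hard for `NP` with `O(log n)` adaptive queries gives `NP = RP`.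
Here it is shown that relativizing and algebrizing proofs cannot go further.

Let `pt u` code a point of a space `GF(2^k)^n`, `n ≤ |u|`, and a linear functional of `GF(2^k)` over
`GF(2)` (any coding).  Let `g ≥ 1` be monotone, and let `r n / (g (n ^ 2) * log n)`,
`n / (g (n ^ 2) * log n)` and, for all `a`, `s n / (g (n ^ a) * log n)` tend to infinity.  (For
`g = 1` this means: `r n / log n → ∞` and `s n / log n → ∞`.)  Above every oracle `R` there is an
oracle `O` that contains its own multilinear extensions (`O (01u)` is the value of the functional at
the value of the multilinear extension of `O`, restricted to `{0,1}^n`, at the point), relative to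
which
* a p-selective language `L` with at most `2 ^ r n` elements of length at most `n` is
  `≤_T^P`-complete for `NP`;
* all languages in `PSPACE` and in the polynomial hierarchy are decided in polynomial time with at
  most `s n` adaptive queries to `L`, and `PSPACE = UP ∩ coUP`;
* but there are trapdoor permutations that are secure against probabilistic time `n ^ O(g n)` with
  `O(g n * log n)` bits of advice; in particular `P ≠ NP`;
* there is a `≤_T^P`-complete language `S` for `NP` with at most `r n ^ 2` elements of length at
  most `n` such that for all `x`, `y` one of the four possible values of `(S x, S y)` is excluded in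
  polynomial time.

Construction.  Scales are `N k = 2 ^ 2 ^ k`; the password of scale `k` is the initial segment of
length `r_k` of a secret sequence `ρ`, where `r_{k+1} - r_k` is a little more than
`g (N (k + 2)) * 2 ^ (k + 2)`.  The oracle `O` is the closure
under multilinear extensions of a left part, which contains `R` and masked trapdoor permutations of
exponential security, and of a right part, which at the positions of length from `N k` to
`64 * N k - 1` with the password of scale `k` confirms the password and answers universal `NP^O` and
`PSPACE^O` questions of length at most `N k / 8 - 1`; all other positions of the right part are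
filled with random junk `J`.  A password is tested at `2 * r_k + 3` positions, where the answer is
always yes; no other string of length `r_k` passes all these tests.

Masking.  Let `N (j + 1) ≤ n < N (j + 2)`.  A question about a multilinear extension is a linear form
in the right part.  Let `v` be the `j + 1`-st block of `ρ`.  A block `v` is dangerous for linearly
independent linear forms if some nontrivial sum of them has all its positions of maximal length in
the region of the passwords with the block `v`.  Sums that belong to different blocks are linearly
independent, so at most `t` blocks are dangerous for `t` forms.  If `v` is not dangerous then, as all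
contents only depend on shorter positions, every nontrivial sum takes both values equally often when
`J` varies, so the answers are independent and uniformly distributed.  Therefore the average success
of an adversary over `v` and `J` is at most its success in an ideal process, where the answers to
linearly independent questions are coins, plus `t / 2 ^ |v|`.  The ideal process with fixed coins is
a decision tree that only uses the left part and a table of size `2 ^ O(√n)`, and the permutations
are secure against small families of decision trees.  Counting and compactness give `ρ` and `J`.

Definitions: machines, `InP`, `InUP`, `TuringComplete` are in `Lib_helper74/CKF/Defs.lean`;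
`PCL.PSelective` in `Lib_helper78/PCL/Defs.lean`; `PSL.SigmaP` in `Lib_helper61/PSL/Coll.lean`;
`FewQueriesReducible`, `PairApproximable` in `Lib_helper78/PCW/Defs.lean`;
`TD.TrapdoorPermutations` in `Lib_helper64/TD/Notions.lean`; `TA.SelfExtended` in
`Lib_helper78/TA/Defs.lean`; `APS.InPSPACE` in `Lib_helper78/APS/Defs.lean`; `APT.SecureTime` in
`Lib_helper78/APT/Defs.lean`.
-/

set_option autoImplicit false

namespace Pool.Agent.Results.MP_5d94c0_lc.DensityTimeTradeoff

open Pool.Agent Pool.Agent.CK

theorem result
    (pt : List Bool → (n : ℕ) × (k : ℕ) × (Fin n → GaloisField 2 k) ×
      (GaloisField 2 k →ₗ[ZMod 2] ZMod 2)) (hpt : ∀ u, (pt u).1 ≤ u.length)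
    (R : Lang) (g r s : ℕ → ℕ) (hg : Monotone g) (hg1 : ∀ n, 1 ≤ g n)
    (hr : ∀ a : ℕ, ∀ᶠ n in Filter.atTop, a * (g (n ^ 2) * Nat.log 2 n) ≤ min (r n) n)
    (hs : ∀ a : ℕ, ∀ᶠ n in Filter.atTop, a * (g (n ^ a) * Nat.log 2 n) ≤ s n) :
    ∃ (O L S : Lang) (G F K : List Bool → List Bool),
      InP O R ∧ TA.SelfExtended pt O ∧ TD.TrapdoorPermutations O G F K ∧ APT.SecureTime g O G F ∧
      PCL.PSelective O L ∧ TuringComplete O L ∧ ¬ InP O L ∧
      (∀ᶠ n : ℕ in Filter.atTop,
        Nat.card {z : List Bool // z.length ≤ n ∧ L z = true} ≤ 2 ^ r n) ∧
      (∀ D : Lang, ((∃ j : ℕ, PSL.SigmaP O j D) ∨ APS.InPSPACE O D) →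
        PCW.FewQueriesReducible O D L s ∧ InUP O D ∧ InUP O fun x => !D x) ∧
      PCW.PairApproximable O S ∧ TuringComplete O S ∧
      (∀ᶠ n : ℕ in Filter.atTop,
        Nat.card {z : List Bool // z.length ≤ n ∧ S z = true} ≤ r n ^ 2) := by
  obtain ⟨ext, hext, hpar⟩ := AFF.exists_mlx pt hpt
  obtain ⟨Y, H, O, L, S, G, F, K, hclo, h⟩ := APT.main6 (ext := ext) hext R g r s hg hg1 hr hs
  refine ⟨O, L, S, G, F, K, h.1, fun u => ?_, h.2⟩
  rw [hclo.mid]
  exact hpar O u

end Pool.Agent.Results.MP_5d94c0_lc.DensityTimeTradeoff
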