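import Pool.Agent.Lib_helper61.PSL.Main

/-!
# MP_5d94c0_lc: relativized worlds with a p-selective Turing complete set

Above every oracle `X` there is an oracle `O` relative to which the negated form of the question
holds (`P ≠ NP`, and a left cut, so a p-selective language, is `≤_T^P`-complete for `NP`), while
* for every `m` there is a language in `P^NP` that is not decided by any machine running in time
  `O(2 ^ (n ^ m))` with at most `n ^ m + O(1)` adaptive questions to a language in `NP`;
* the same for any number of questions to a sparse language in `NP`;
* no language in `NP` with `2 ^ (n ^ o(1))` elements of length at most `n` is `≤_T^P`-complete.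

(By the theorem PrioritySelectorsCollapsePH the polynomial hierarchy relative to `O` is `P^NP`.)

Construction.  `O` contains a secret sequence `ρ`.  Strings of `O` have a password `u`.  `O` confirms
some passwords, only strings in the left cut of `ρ`, among them all initial segments of `ρ` of
length `2 ^ k`; and with such a password it answers universal `NP^O` questions about short strings.
So the left cut of `ρ` is in `NP^O`, and it is complete: find the initial segment of `ρ` by binary
search, then ask the universal question.  Diagonalization: the block of `ρ` at the positions in
`[2 ^ κ, 2 ^ (κ + 1))` is increased, as a number, step by step; old answers of the oracle stay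
correct (the left cut only grows), so the witnesses of positive answers of an `NP^O` language can
be protected.  The answers to the `b` questions of a machine grow lexicographically, so after at
most `2 ^ b` steps the machine gives the same output for two values of the block with different
last bits.  For sparse sets the number of their elements takes the place of the answers.
-/

set_option autoImplicit false

namespace Pool.Agent.Results.MP_5d94c0_lc.SelectiveCompleteWorlds

open Pool.Agent.CK Pool.Agent.PSL

theorem result (X : Lang) : ∃ (O : Lang) (ρ : ℕ → Bool),
    (∀ v : List Bool, O (false :: v) = X v) ∧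
    PSelective (LC ρ) ∧ TuringComplete O (LC ρ) ∧ ¬ InP O (LC ρ) ∧
    (∀ m : ℕ, ∃ D : Lang, TuringReducible O D (LC ρ) ∧
      (∀ B : Lang, InNP O B → ∀ (c : Cmd) (C : ℕ), ¬ ∀ x : List Bool,
        numQ O B c x (C * 2 ^ x.length ^ m + C) ≤ x.length ^ m + C ∧
          (Accepts (join O B) c x [] (C * 2 ^ x.length ^ m + C) ↔ D x = true)) ∧
      ∀ B : Lang, InNP O B → Sparse B → ∀ (c : Cmd) (C : ℕ), ¬ ∀ x : List Bool,
        (Accepts (join O B) c x [] (C * 2 ^ x.length ^ m + C) ↔ D x = true)) ∧
    ∀ B : Lang, InNP O B → Thin B → ¬ TuringReducible O (LC ρ) B := by
  obtain ⟨O, ρ, h1, h2⟩ := main.2.2 X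
  exact ⟨O, ρ, h1, LC_sel ρ, h2⟩

end Pool.Agent.Results.MP_5d94c0_lc.SelectiveCompleteWorlds
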