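import Pool.Agent.Lib_helper78.TT.Main

/-!
# MP_5d94c0_lc: truth-table reductions to p-selective languages

If every language in `NP` is truth-table reducible to some p-selective language, then `P = NP`.
More generally this holds for reductions with a constant number of rounds of parallel queries, and
for reductions with `O(log n)` adaptive queries.  (Selman's question is about reductions with
polynomially many adaptive queries.)  Everything holds relative to every oracle `O`;
`O = fun _ => false` is the classical case.  There is also a quantitative version, for `r n` rounds
of parallel queries or `r n * log n` adaptive queries.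

Proof.

(1) Candidates (`gen_rounds`).  For a batch of questions `x_1, ..., x_K` to a language `B` in `NP`,
all queries of the reductions are computed at once and sorted with the selector of `S`; then `S` is
an initial segment.  So there are at most polynomially many candidates for the vector of the
answers `B x_1, ..., B x_K`, and the true vector is one of them.

(2) Let `W` be a set of strings of length `N`, let `p` be a prime, `B_y` the polynomial over `F_p`
with the coefficients `y`.  For a level `s = (t_1, t_2, c_1, c_2, e_1, e_2)` in `F_p^6` let
`u_y = c_1 B_y(t_1) + c_2 B_y(t_2)`, `v_y = e_1 B_y(t_1) + e_2 B_y(t_2)`, let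
`P_y = X^2 B_y + v_y X + u_y`, and for `a` in `F_p` let `f_a(y) = (P_y(a), P_y'(a))` (`hv`).
* `density`: if `|W| > p^4` then for at least `p^3 / (128 (N + 2)^2)` of the `p^3` triples
  `(a, b, c)` there is `y` in `W` with `f_a(y) = (b, c)`, at every level.  (`expansion`: otherwise
  there is a nonzero polynomial `Q(X, Y, Z)` of small degree with `Q(X, P_y, P_y') = 0` for all `y`
  in `W`; such a differential equation has few solutions of small degree.)
* `collisions`: for `y /= y'` and every `a`, `f_a(y) = f_a(y')` at most at `p^4 (N^2 + 1)` of the
  `p^6` levels.
* `few_survivors`: if for each level `s` there is a set `J_s` of at most `h` triples, such that each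
  `y` in `U` satisfies `f_a(y) = (b, c)` for some `(a, b, c)` in `J_s`, and
  `2 h (N^2 + 1) <= p`, then `|U| <= 2 h^2`.
* `cover_hits`: if `m < 2^N` vectors have at least `K / D` ones each, then a greedily chosen set of
  `D N` places hits all of them.
* `isolate`: if `|W| N < q`, `q` prime, then some `a` isolates a given `y` in `W` by the value
  `B_y(a)` modulo `q`.

(3) The search (`search`, `search_complete`, `search_sound`).  Let `W` be the set of the witnesses
for an `NP` question.  At each level, ask the `p^3` questions 'is there `y` in `W` with
`f_a(y) = (b, c)`', take the candidate vectors with many ones, choose a set `J` of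
`h = 128 (N + 2)^2 N` triples which hits all of them, and replace `W` by the set of all `y` in `W`
with `f_a(y) = (b, c)` for some `(a, b, c)` in `J`.  The questions of the next levels are again
questions to a fixed language in `NP`.  As long as `|W| > p^4`, the true vector is among the
chosen candidates, so that `W` does not become empty; after all levels `W` is small.  So at some
level `1 <= |W| <= p^4`.  Then a witness is isolated by some `a`, `b`, `q`, and the candidates for
the batch of questions 'is there `y` in `W` with `B_y(a) = b` modulo `q` and `y_j = 1`' contain
this witness.  All candidates are verified; all moduli in a range are tried.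

Definitions: machines, `Halts`, `Accepts`, `InP`, `InNP` are in `Lib_helper74/CKF/Defs.lean`;
`PSelective` is in `Lib_helper78/PCL/Defs.lean`, `RoundReducible` in `Lib_helper78/TT/Defs.lean` and
`FewQueriesReducible` in `Lib_helper78/PCW/Defs.lean`.
-/

set_option autoImplicit false

namespace Pool.Agent.Results.MP_5d94c0_lc.SelectiveFewRounds

open Pool.Agent.CK Pool.Agent.PCL Pool.Agent.PCW Pool.Agent.TT

theorem result (O : Lang) :
    (∀ S : Lang, PSelective O S →
      (∀ A, InNP O A → (∃ r : ℕ, RoundReducible O (fun _ => r) A S) ∨
        ∃ c : ℕ, FewQueriesReducible O A S (fun n => c * Nat.log 2 (n + 2) + c)) →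
      ∀ A, InNP O A → InP O A) ∧
    ∀ D : Lang, InNP O D → ∃ B : Lang, InNP O B ∧ ∀ S : Lang, PSelective O S →
      ∀ r : ℕ → ℕ, (RoundReducible O r B S ∨
        FewQueriesReducible O B S (fun n => r n * Nat.log 2 (n + 2))) →
      ∃ (c : Cmd) (e : ℕ), ∀ (x : List Bool) (m : ℕ),
        Halts O c x (List.replicate m true) ((x.length + m + 2) ^ e) ∧
        ∀ R : ℕ, (∀ n ≤ (x.length + R + 2) ^ e, r n ≤ R) →
          (x.length + R + 2) ^ (e * (R + 1)) ≤ m →
          (Accepts O c x (List.replicate m true) ((x.length + m + 2) ^ e) ↔ D x = true) :=
  ⟨fun _ hS h => clause_one hS h, fun _ hD => clause_two hD⟩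

end Pool.Agent.Results.MP_5d94c0_lc.SelectiveFewRounds
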